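import Pool.Agent.Q151.Phy.Fin

/-! # `MP_afdbb1_co`: the common partition counts of two trees need not be unimodal

The definitions are in `Pool.Agent.Q151.Phy.Def`: `PhyloTree n` (finite tree, all degrees `1`
or `3`, leaves labelled bijectively by `Fin n`), `PhyloTree.parts` (partitions of the labels
obtained by deleting edges), `common T F k` (the number `a_k(T,F)`), `Unimodal`, `LogConcave`.

Q1 and Q2 are both answered negatively. -/

namespace Pool.Agent.Results.MP_afdbb1_co.TwoPeaks

open Pool.Agent.Q151.Phy

/-- There are two phylogenetic trees with `2100` leaves whose numbers of common induced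
partitions satisfy `4096 · a₁₂₆₀ < a₁₀₅₁` and `4096 · a₁₂₆₀ < a₁₄₃₀`; the sequence
`a₁, …, a₂₁₀₀` is neither unimodal nor log-concave. -/
theorem result : ∃ T F : PhyloTree 2100,
    4096 * common T F 1260 < common T F 1051 ∧ 4096 * common T F 1260 < common T F 1430 ∧
    ¬ Unimodal 2100 (common T F) ∧ ¬ LogConcave 2100 (common T F) := by
  obtain ⟨h1, h2⟩ := two_peaks
  refine ⟨treeT, treeF, h1, h2, ?_, ?_⟩
  · exact not_unimodal_of 2100 (common treeT treeF) 1051 1260 1430 (by norm_num) (by norm_num)
      (by norm_num) (by norm_num) (by omega) (by omega)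
  · exact not_logConcave_of 2100 (common treeT treeF) 1051 1260 1430 (by norm_num) (by norm_num)
      (by norm_num) (by norm_num) (fun t ht1 ht2 => pos_common t (by omega) (by omega))
      (by omega) (by omega)

end Pool.Agent.Results.MP_afdbb1_co.TwoPeaks
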